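import Pool.Agent.Helper54.SR.Defs

/-! SR-D8: the ideal identity on an affine plane curve. -/

set_option autoImplicit false
set_option linter.unusedVariables false
open Polynomial

namespace Pool.Agent.Helper54.SR

section rings

/-- membership in the ideal of a point -/
theorem h48_mem_pt {S : Type} [CommRing S] (f : S[X][X]) (a b : S) (h : evalEval a b f = 0)
    (B : S[X][X]) :
    AdjoinRoot.mk f B ∈ Ideal.span {AdjoinRoot.mk f (C (X - C a)), AdjoinRoot.mk f (X - C (C b))} ↔
      evalEval a b B = 0 := by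
  have hI : Ideal.span {AdjoinRoot.mk f (C (X - C a)), AdjoinRoot.mk f (X - C (C b))} =
      Ideal.map (AdjoinRoot.mk f) (Ideal.span {C (X - C a), X - C (C b)}) := by
    rw [Ideal.map_span, Set.image_pair]
  rw [hI, Ideal.mem_map_iff_of_surjective _ AdjoinRoot.mk_surjective]
  constructor
  · rintro ⟨x, hx, hxB⟩
    rw [mem_span_C_X_sub_C_X_sub_C_iff_eval_eval_eq_zero] at hx
    rw [AdjoinRoot.mk_eq_mk] at hxB
    obtain ⟨q, hq⟩ := hxB
    have h1 : evalEval a b (x - B) = 0 := by
      rw [hq, evalEval_mul, h, zero_mul]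
    rw [evalEval_sub] at h1
    have h2 : evalEval a b x = 0 := hx
    rw [h2, zero_sub, neg_eq_zero] at h1
    exact h1
  · intro hB
    refine ⟨B, ?_, rfl⟩
    rw [mem_span_C_X_sub_C_X_sub_C_iff_eval_eval_eq_zero]
    exact hB

theorem h48_isCoprime_pt {S : Type} [CommRing S] (f : S[X][X]) (a a' b b' : S)
    (h : IsUnit (b - b')) :
    IsCoprime (Ideal.span {AdjoinRoot.mk f (C (X - C a)), AdjoinRoot.mk f (X - C (C b))})
      (Ideal.span {AdjoinRoot.mk f (C (X - C a')), AdjoinRoot.mk f (X - C (C b'))}) := by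
  rw [Ideal.isCoprime_iff_sup_eq]
  have hu : IsUnit (AdjoinRoot.mk f (C (C (b - b')))) := by
    have h1 : IsUnit (C (C (b - b')) : S[X][X]) := (h.map C).map C
    exact h1.map (AdjoinRoot.mk f)
  refine Ideal.eq_top_of_isUnit_mem _ ?_ hu
  have e1 : AdjoinRoot.mk f (C (C (b - b'))) =
      AdjoinRoot.mk f (X - C (C b')) - AdjoinRoot.mk f (X - C (C b)) := by
    rw [← map_sub]
    congr 1
    rw [C_sub, C_sub]
    ring
  rw [e1]
  refine Ideal.sub_mem _ ?_ ?_
  · exact Ideal.mem_sup_right (Ideal.subset_span (by simp))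
  · exact Ideal.mem_sup_left (Ideal.subset_span (by simp))

theorem h48_prod_eq_inf {R ι : Type} [CommRing R] [DecidableEq ι] (s : Finset ι) (m : ι → Ideal R)
    (h : ∀ i ∈ s, ∀ j ∈ s, i ≠ j → IsCoprime (m i) (m j)) : ∏ i ∈ s, m i = s.inf m := by
  induction s using Finset.induction_on with
  | empty => simp
  | insert a s ha ih =>
    have ih' := ih fun i hi j hj hij =>
      h i (Finset.mem_insert_of_mem hi) j (Finset.mem_insert_of_mem hj) hij
    have hc : IsCoprime (m a) (∏ i ∈ s, m i) := IsCoprime.prod_right fun i hi =>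
      h a (Finset.mem_insert_self _ _) i (Finset.mem_insert_of_mem hi) (fun hai => ha (hai ▸ hi))
    rw [Finset.prod_insert ha, Ideal.mul_eq_inf_of_isCoprime hc, ih', Finset.inf_insert]

theorem h48_mem_line {S : Type} [CommRing S] (f : S[X][X]) {n : ℕ} (t : S)
    (y : Fin n → S) (hfy : f.map (evalRingHom t) = ∏ i, (X - C (y i)))
    (hy : ∀ i j, i ≠ j → IsUnit (y i - y j)) (hft : ∀ i, evalEval t (y i) f = 0)
    (B : S[X][X]) :
    AdjoinRoot.mk f B ∈ Ideal.span {AdjoinRoot.mk f (C (X - C t))} ↔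
      ∀ i, evalEval t (y i) B = 0 := by
  constructor
  · intro h i
    rw [Ideal.mem_span_singleton'] at h
    obtain ⟨q, hq⟩ := h
    obtain ⟨Q, rfl⟩ := AdjoinRoot.mk_surjective q
    rw [← map_mul, AdjoinRoot.mk_eq_mk] at hq
    obtain ⟨r, hr⟩ := hq
    have h1 : evalEval t (y i) (Q * C (X - C t) - B) = 0 := by
      rw [hr, evalEval_mul, hft i, zero_mul]
    rw [evalEval_sub, evalEval_mul] at h1
    have h2 : evalEval t (y i) (C (X - C t)) = 0 := by
      simp [evalEval]
    rw [h2, mul_zero, zero_sub, neg_eq_zero] at h1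
    exact h1
  · intro h
    have hdvd : f.map (evalRingHom t) ∣ B.map (evalRingHom t) := by
      rw [hfy]
      refine Finset.prod_dvd_of_coprime ?_ ?_
      · intro i _ j _ hij
        exact isCoprime_X_sub_C_of_isUnit_sub (hy i j hij)
      · intro i _
        rw [dvd_iff_isRoot, IsRoot.def]
        have h1 := h i
        rw [← h1]
        unfold evalEval
        rw [eval_map, eval₂_evalRingHom]
    obtain ⟨q, hq⟩ := hdvd
    have h1 : ∀ j, (X - C t) ∣ (B - f * q.map C).coeff j := by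
      intro j
      rw [dvd_iff_isRoot, IsRoot.def]
      have h2 : (B - f * q.map C).map (evalRingHom t) = 0 := by
        rw [Polynomial.map_sub, Polynomial.map_mul, Polynomial.map_map, hq]
        have h3 : (evalRingHom t).comp (C : S →+* S[X]) = RingHom.id S := by
          ext x
          simp
        rw [h3, Polynomial.map_id, sub_self]
      have h3 := congrArg (fun p : S[X] => p.coeff j) h2
      simp only [coeff_map, coeff_zero] at h3
      exact h3
    rw [← C_dvd_iff_dvd_coeff] at h1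
    obtain ⟨Q, hQ⟩ := h1
    rw [Ideal.mem_span_singleton']
    refine ⟨AdjoinRoot.mk f Q, ?_⟩
    rw [← map_mul, AdjoinRoot.mk_eq_mk]
    refine ⟨-(q.map C), ?_⟩
    rw [mul_comm Q, ← hQ]
    ring

/-- SR-D8 -/
theorem ideal_identity {S : Type} [CommRing S] (f : S[X][X]) (hf : f.Monic) {n : ℕ} (t η : S)
    (y : Fin n → S) (i₀ : Fin n) (hfy : f.map (evalRingHom t) = ∏ i, (X - C (y i)))
    (h0 : evalEval 0 η f = 0) (hy : ∀ i j, i ≠ j → IsUnit (y i - y j))
    (hη : ∀ i, i ≠ i₀ → IsUnit (η - y i)) (J : Ideal (AdjoinRoot f))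
    (hJ : ∀ B : S[X][X], AdjoinRoot.mk f B ∈ J ↔
      (evalEval 0 η B = 0 ∧ ∀ i, i ≠ i₀ → evalEval t (y i) B = 0)) :
    J * Ideal.span {AdjoinRoot.mk f (C (X - C t)), AdjoinRoot.mk f (X - C (C (y i₀)))} =
      Ideal.span {AdjoinRoot.mk f (C (X - C t))} *
        Ideal.span {AdjoinRoot.mk f (C (X - C 0)), AdjoinRoot.mk f (X - C (C η))} := by
  classical
  have hft : ∀ i, evalEval t (y i) f = 0 := by
    intro i
    have h1 : evalEval t (y i) f = (f.map (evalRingHom t)).eval (y i) := by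
      unfold evalEval
      rw [eval_map, eval₂_evalRingHom]
    rw [h1, hfy, eval_prod]
    exact Finset.prod_eq_zero (Finset.mem_univ i) (by simp)
  set m : Fin n → Ideal (AdjoinRoot f) := fun i =>
    Ideal.span {AdjoinRoot.mk f (C (X - C t)), AdjoinRoot.mk f (X - C (C (y i)))} with hm
  set m₀ : Ideal (AdjoinRoot f) :=
    Ideal.span {AdjoinRoot.mk f (C (X - C 0)), AdjoinRoot.mk f (X - C (C η))} with hm₀
  have hmc : ∀ i j, i ≠ j → IsCoprime (m i) (m j) := fun i j hij =>
    h48_isCoprime_pt f t t (y i) (y j) (hy i j hij)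
  have hm₀c : ∀ i, i ≠ i₀ → IsCoprime m₀ (m i) := fun i hi =>
    h48_isCoprime_pt f 0 t η (y i) (hη i hi)
  have hline : Ideal.span {AdjoinRoot.mk f (C (X - C t))} = ∏ i, m i := by
    rw [h48_prod_eq_inf Finset.univ m fun i _ j _ hij => hmc i j hij]
    ext b
    obtain ⟨B, rfl⟩ := AdjoinRoot.mk_surjective b
    rw [h48_mem_line f t y hfy hy hft, Submodule.mem_finsetInf]
    constructor
    · intro h i _
      exact (h48_mem_pt f t (y i) (hft i) B).mpr (h i)
    · intro h i
      exact (h48_mem_pt f t (y i) (hft i) B).mp (h i (Finset.mem_univ i))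
  have hJe : J = m₀ * ∏ i ∈ Finset.univ.erase i₀, m i := by
    have hc : IsCoprime m₀ (∏ i ∈ Finset.univ.erase i₀, m i) := IsCoprime.prod_right fun i hi =>
      hm₀c i (Finset.ne_of_mem_erase hi)
    rw [Ideal.mul_eq_inf_of_isCoprime hc, h48_prod_eq_inf _ m fun i _ j _ hij => hmc i j hij]
    ext b
    obtain ⟨B, rfl⟩ := AdjoinRoot.mk_surjective b
    rw [hJ B, Submodule.mem_inf, Submodule.mem_finsetInf]
    constructor
    · rintro ⟨h1, h2⟩
      refine ⟨(h48_mem_pt f 0 η h0 B).mpr h1, fun i hi => ?_⟩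
      exact (h48_mem_pt f t (y i) (hft i) B).mpr (h2 i (Finset.ne_of_mem_erase hi))
    · rintro ⟨h1, h2⟩
      refine ⟨(h48_mem_pt f 0 η h0 B).mp h1, fun i hi => ?_⟩
      exact (h48_mem_pt f t (y i) (hft i) B).mp
        (h2 i (Finset.mem_erase.mpr ⟨hi, Finset.mem_univ i⟩))
  have hlast : J * m i₀ = (∏ i, m i) * m₀ := by
    rw [hJe, ← Finset.mul_prod_erase Finset.univ m (Finset.mem_univ i₀)]
    ring
  rw [hline]
  exact hlast

end rings

end Pool.Agent.Helper54.SR
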